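import Pool.Agent.Lib.MP_e1e491_gt.Full

/-! A planar boundary of a hyperbolic group embeds quasisymmetrically in the round sphere. -/

open scoped NNReal

namespace Pool.Agent.Results.MP_e1e491_gt.Planar

theorem result (G : Type) [Group G] (S : Finset G) (hS : Subgroup.closure (S : Set G) = ⊤)
    (hyp : KKC.Hyperbolic S) [MetricSpace (KKC.Bdry S)] (hv : KKC.IsVisual S)
    (hc : ∃ A : Set (Metric.sphere (0 : EuclideanSpace ℝ (Fin 3)) 1),
      Nonempty (KKC.Bdry S ≃ₜ A)) :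
    ∃ (f : KKC.Bdry S → Metric.sphere (0 : EuclideanSpace ℝ (Fin 3)) 1) (η : ℝ≥0 ≃ₜ ℝ≥0),
      Topology.IsEmbedding f ∧ ∀ x y z : KKC.Bdry S, z ≠ x →
        InnerProductGeometry.angle (f x).1 (f y).1 / InnerProductGeometry.angle (f x).1 (f z).1 ≤
          (η (nndist x y / nndist x z) : ℝ) := by
  obtain ⟨A, ⟨e⟩⟩ := hc
  obtain ⟨f, η, h1, -, h2⟩ := KFull.embed S hS hyp hv (ι := fun x => (e x).1)
    (continuous_subtype_val.comp e.continuous) (Subtype.val_injective.comp e.injective)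
  exact ⟨f, η, h1, h2⟩

end Pool.Agent.Results.MP_e1e491_gt.Planar
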